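import Pool.Agent.Run7.h88.Joint

/-!
# Almost all dilates of large ergodic finite `×2`, `×3`-invariant measures equidistribute

Let `μ` be an ergodic finitely supported probability measure on the circle, invariant under
`x ↦ 2 x` and `x ↦ 3 x`, carried by points of order dividing `N`.  For every `δ > 0`, most of the
integers `m` in EVERY interval of length at least `N ^ δ` move `μ` close to Lebesgue measure, as soon
as the support of `μ` is large; more generally the points `(x, P₁(m) x, …, P_d(m) x)`, `x` chosen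
with `μ`, are distributed almost like `μ × λ ^ d` for most of the `m`.
-/

set_option autoImplicit false

open MeasureTheory Filter Topology Polynomial

namespace Pool.Agent.Results.MP_715eb0_an.AlmostAllDilates

/-- `μ` is a probability measure on the circle, invariant and jointly ergodic under `x ↦ 2 x` and
`x ↦ 3 x`, and finitely supported. -/
def ErgodicFinite (μ : Measure UnitAddCircle) : Prop :=
  IsProbabilityMeasure μ ∧
  Measure.map (fun x : UnitAddCircle => (2 : ℕ) • x) μ = μ ∧
  Measure.map (fun x : UnitAddCircle => (3 : ℕ) • x) μ = μ ∧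
  (∀ s : Set UnitAddCircle, MeasurableSet s →
    (fun x : UnitAddCircle => (2 : ℕ) • x) ⁻¹' s = s →
    (fun x : UnitAddCircle => (3 : ℕ) • x) ⁻¹' s = s → μ s = 0 ∨ μ sᶜ = 0) ∧
  ∃ t : Finset UnitAddCircle, μ ((t : Set UnitAddCircle)ᶜ) = 0

/-- **Almost all dilates equidistribute, jointly and along polynomials.** Let `μ n` be ergodic and
finitely supported, carried by points `x` with `N n • x = 0`, let `δ > 0` and `K n ≥ (N n) ^ δ`.
Let `P n 1, …, P n d` be integer polynomials such that for every nonzero integer vector `c` the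
polynomials `∑ c i • P n i` have degree between `1` and `R`, and leading coefficients `b n` for which
the number of atoms of the image of `μ n` under `x ↦ b n • x` tends to infinity.  (For polynomials
`P i (X + a n)` with `P i` independent of `n` and any integers `a n`, this means that no nontrivial
integer combination of the `P i` is constant and that `|supp (μ n)| → ∞`; for instance `d = 1` and
`P n 1 = X + a n`, the dilates by all the integers `m` in `[a n, a n + K n)`.)
Then for every continuous `f` on `𝕋 × 𝕋 ^ d` the average over `0 ≤ m < K n` of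
`|∫ f (x, P₁(m) x, …, P_d(m) x) dμₙ(x) - ∫ f d(μₙ × λ ^ d)|` tends to zero. -/
theorem result (μ : ℕ → Measure UnitAddCircle) (hμ : ∀ n, ErgodicFinite (μ n))
    (N : ℕ → ℕ) (hN : ∀ n, 1 ≤ N n) (htor : ∀ n x, μ n {x} ≠ 0 → N n • x = 0)
    (δ : ℝ) (hδ : 0 < δ) (K : ℕ → ℕ) (hK : ∀ n, (N n : ℝ) ^ δ ≤ K n)
    (d R : ℕ) (P : ℕ → Fin d → ℤ[X])
    (hP : ∀ c : Fin d → ℤ, c ≠ 0 → ∀ n, 1 ≤ (∑ i, c i • P n i).natDegree ∧
      (∑ i, c i • P n i).natDegree ≤ R)
    (hlead : ∀ c : Fin d → ℤ, c ≠ 0 → Tendsto (fun n => Set.ncard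
      {y : UnitAddCircle | μ n {x | (∑ i, c i • P n i).leadingCoeff • x = y} ≠ 0}) atTop atTop)
    (f : C(UnitAddCircle × (Fin d → UnitAddCircle), ℝ)) :
    Tendsto (fun n => (K n : ℝ)⁻¹ * ∑ m ∈ Finset.range (K n),
      |(∫ x, f (x, fun i => (P n i).eval (m : ℤ) • x) ∂(μ n)) -
        ∫ p, f p ∂((μ n).prod volume)|) atTop (𝓝 0) := by
  have : ∀ n, IsProbabilityMeasure (μ n) := fun n => (hμ n).1
  exact Run7.h88.joint_real
    (fun n => ⟨(hμ n).1, (hμ n).2.1, (hμ n).2.2.1, (hμ n).2.2.2.1, (hμ n).2.2.2.2⟩)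
    hN htor hδ hK R P hP hlead f

/-- The special case of all the integers in an interval: the images of `μ n` under `x ↦ m x` are
close to Lebesgue measure for most of the integers `m` in `[a n, a n + K n)`, if
`|supp (μ n)| → ∞`. -/
theorem dilates (μ : ℕ → Measure UnitAddCircle) (hμ : ∀ n, ErgodicFinite (μ n))
    (hcard : Tendsto (fun n => Set.ncard {x : UnitAddCircle | μ n {x} ≠ 0}) atTop atTop)
    (N : ℕ → ℕ) (hN : ∀ n, 1 ≤ N n) (htor : ∀ n x, μ n {x} ≠ 0 → N n • x = 0)
    (δ : ℝ) (hδ : 0 < δ) (K : ℕ → ℕ) (hK : ∀ n, (N n : ℝ) ^ δ ≤ K n) (a : ℕ → ℤ)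
    (f : C(UnitAddCircle, ℝ)) :
    Tendsto (fun n => (K n : ℝ)⁻¹ * ∑ m ∈ Finset.range (K n),
      |(∫ x, f ((a n + m) • x) ∂(μ n)) - ∫ x, f x|) atTop (𝓝 0) := by
  have hpr : ∀ n, IsProbabilityMeasure (μ n) := fun n => (hμ n).1
  have hEF : ∀ n, Run7.h88.EF (μ n) := fun n =>
    ⟨(hμ n).1, (hμ n).2.1, (hμ n).2.2.1, (hμ n).2.2.2.1, (hμ n).2.2.2.2⟩
  have hlc : ∀ (c : Fin 1 → ℤ), c ≠ 0 → ∀ n : ℕ,
      (∑ i, c i • (fun _ : Fin 1 => (X + C (a n) : ℤ[X])) i).natDegree = 1 ∧
      (∑ i, c i • (fun _ : Fin 1 => (X + C (a n) : ℤ[X])) i).leadingCoeff = c 0 := by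
    intro c hc n
    have h0 : c 0 ≠ 0 := fun h => hc (funext fun i => by rw [Subsingleton.elim i 0]; exact h)
    have e : (∑ i, c i • (fun _ : Fin 1 => (X + C (a n) : ℤ[X])) i) =
        C (c 0) * X + C (c 0 * a n) := by
      rw [Fin.sum_univ_one, smul_eq_C_mul, mul_add, C_mul]
    rw [e]
    exact ⟨natDegree_linear h0, leadingCoeff_linear h0⟩
  have h1 := result μ hμ N hN htor δ hδ K hK 1 1 (fun n _ => X + C (a n))
    (fun c hc n => by rw [(hlc c hc n).1]; exact ⟨le_rfl, le_rfl⟩)
    (fun c hc => by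
      have h0 : c 0 ≠ 0 := fun h => hc (funext fun i => by rw [Subsingleton.elim i 0]; exact h)
      simp only [fun n => (hlc c hc n).2]
      rw [← tendsto_natCast_atTop_iff (R := ℝ)]
      have h2 : Tendsto (fun n => ((Set.ncard {x : UnitAddCircle | μ n {x} ≠ 0} : ℕ) : ℝ) /
          |(c 0 : ℝ)|) atTop atTop :=
        ((tendsto_natCast_atTop_atTop (R := ℝ)).comp hcard).atTop_div_const
          (abs_pos.2 (by exact_mod_cast h0))
      refine tendsto_atTop_mono (fun n => ?_) h2
      have h3 := Run7.h88.atoms_pos ((hEF n).map (c 0))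
      obtain ⟨y, hy⟩ := (Set.ncard_pos (Run7.h88.atoms_finite ((hEF n).map (c 0)))).1 h3
      have h4 := Run7.h88.atoms_mass ((hEF n).map (c 0)) hy
      have h5 := Run7.h88.fiber_le (hEF n) h0 y
      have hbm := Run7.h88.zsmul_meas (c 0)
      rw [map_measureReal_apply hbm (measurableSet_singleton y)] at h4
      have h6 : Run7.h88.atoms (Measure.map (fun x : UnitAddCircle => c 0 • x) (μ n)) =
          {y : UnitAddCircle | μ n {x | c 0 • x = y} ≠ 0} := by
        ext z
        simp only [Run7.h88.atoms, Set.mem_ofPred_eq]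
        rw [Measure.map_apply hbm (measurableSet_singleton z)]
        rfl
      rw [h6] at h4 h3
      have h7 : (1 : ℝ) / ((Set.ncard {y : UnitAddCircle | μ n {x | c 0 • x = y} ≠ 0} : ℕ) : ℝ) ≤
          |(c 0 : ℝ)| / ((Set.ncard {x : UnitAddCircle | μ n {x} ≠ 0} : ℕ) : ℝ) := by
        rw [← h4]
        exact h5
      have h8 : (0 : ℝ) < ((Set.ncard {x : UnitAddCircle | μ n {x} ≠ 0} : ℕ) : ℝ) := by
        exact_mod_cast Run7.h88.atoms_pos (hEF n)
      have h9 : (0 : ℝ) < ((Set.ncard {y : UnitAddCircle | μ n {x | c 0 • x = y} ≠ 0} : ℕ) : ℝ) := by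
        exact_mod_cast h3
      rw [div_le_div_iff₀ h9 h8] at h7
      rw [div_le_iff₀ (abs_pos.2 (by exact_mod_cast h0))]
      linarith)
    ⟨fun p => f (p.2 0), by fun_prop⟩
  refine h1.congr fun n => ?_
  congr 1
  refine Finset.sum_congr rfl fun m _ => ?_
  congr 2
  · refine integral_congr_ae (Eventually.of_forall fun x => ?_)
    simp [add_comm]
  · have h2 := (measurePreserving_eval (fun _ : Fin 1 => (volume : Measure UnitAddCircle)) 0)
    have h3 : ∫ p : UnitAddCircle × (Fin 1 → UnitAddCircle), f (p.2 0) ∂((μ n).prod volume) =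
        ∫ y : Fin 1 → UnitAddCircle, f (y 0) := by
      rw [integral_fun_snd (fun y : Fin 1 → UnitAddCircle => f (y 0))]
      simp
    have h4 : ∫ y : Fin 1 → UnitAddCircle, f (y 0) = ∫ x, f x := by
      rw [volume_pi]
      exact h2.integral_comp' (f := MeasurableEquiv.funUnique (Fin 1) UnitAddCircle) f
    rw [← h4, ← h3]
    rfl

end Pool.Agent.Results.MP_715eb0_an.AlmostAllDilates
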