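import Pool.Agent.Run7.h88.Limits

/-!
# The atomic masses of the weak limits of large finite `×2`, `×3` orbits form an interval

Let `𝓛` be the set of the weak limits of sequences of ergodic finitely supported probability measures
invariant under `x ↦ 2 x` and `x ↦ 3 x` whose supports grow.  The equidistribution conjecture says
`𝓛 = {λ}`.  We show that the total masses of the atomic parts of the elements of `𝓛` form a closed
interval `[0, c*]`, and that `𝓛` contains `c δ₀ + (1 - c) λ` exactly for `0 ≤ c ≤ c*`.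
-/

set_option autoImplicit false

open MeasureTheory Filter Topology

namespace Pool.Agent.Results.MP_715eb0_an.AtomicMasses

/-- `μ` is a probability measure on the circle, invariant and jointly ergodic under `x ↦ 2 x` and
`x ↦ 3 x`, and finitely supported. -/
def ErgodicFinite (μ : Measure UnitAddCircle) : Prop :=
  IsProbabilityMeasure μ ∧
  Measure.map (fun x : UnitAddCircle => (2 : ℕ) • x) μ = μ ∧
  Measure.map (fun x : UnitAddCircle => (3 : ℕ) • x) μ = μ ∧
  (∀ s : Set UnitAddCircle, MeasurableSet s →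
    (fun x : UnitAddCircle => (2 : ℕ) • x) ⁻¹' s = s →
    (fun x : UnitAddCircle => (3 : ℕ) • x) ⁻¹' s = s → μ s = 0 ∨ μ sᶜ = 0) ∧
  ∃ t : Finset UnitAddCircle, μ ((t : Set UnitAddCircle)ᶜ) = 0

/-- `μ` is the weak limit of a sequence of ergodic finitely supported measures whose numbers of
atoms tend to infinity. -/
def IsLimit (μ : Measure UnitAddCircle) : Prop :=
  IsProbabilityMeasure μ ∧ ∃ ν : ℕ → Measure UnitAddCircle, (∀ n, ErgodicFinite (ν n)) ∧
    Tendsto (fun n => Set.ncard {x : UnitAddCircle | ν n {x} ≠ 0}) atTop atTop ∧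
    ∀ f : C(UnitAddCircle, ℝ), Tendsto (fun n => ∫ x, f x ∂(ν n)) atTop (𝓝 (∫ x, f x ∂μ))

/-- The measure `c δ₀ + (1 - c) λ`. -/
noncomputable def mixture (c : ℝ) : Measure UnitAddCircle :=
  ENNReal.ofReal c • Measure.dirac 0 + ENNReal.ofReal (1 - c) • volume

/-- **The interval of atomic masses.** There is `0 ≤ c* ≤ 1` such that for every `0 ≤ c ≤ 1` the
following are equivalent: `c ≤ c*`; the measure `c δ₀ + (1 - c) λ` is a weak limit of large finite
orbits; some weak limit of large finite orbits has an atomic part of total mass exactly `c`. -/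
theorem result : ∃ cs : ℝ, 0 ≤ cs ∧ cs ≤ 1 ∧ ∀ c : ℝ, 0 ≤ c → c ≤ 1 →
    List.TFAE [c ≤ cs, IsLimit (mixture c), ∃ μ, IsLimit μ ∧ μ.real {x | μ {x} ≠ 0} = c] := by
  have e1 : ∀ μ : Measure UnitAddCircle, ErgodicFinite μ ↔ Run7.h88.EF μ := fun μ =>
    ⟨fun h => ⟨h.1, h.2.1, h.2.2.1, h.2.2.2.1, h.2.2.2.2⟩,
      fun h => ⟨h.prob, h.two, h.three, h.erg, h.fin⟩⟩
  have e2 : ∀ μ : Measure UnitAddCircle, IsLimit μ ↔ Run7.h88.IsLim μ := by
    intro μ
    unfold IsLimit Run7.h88.IsLim Run7.h88.atoms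
    simp only [e1]
  obtain ⟨cs, h0, h1, h⟩ := Run7.h88.interval
  refine ⟨cs, h0, h1, fun c hc0 hc1 => ?_⟩
  obtain ⟨h2, h3⟩ := h c hc0 hc1
  tfae_have 1 ↔ 2 := by
    rw [e2]
    exact h2
  tfae_have 1 ↔ 3 := by
    simp only [e2]
    exact h3
  tfae_finish

end Pool.Agent.Results.MP_715eb0_an.AtomicMasses
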