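import Pool.Agent.Run7.h88.Crit
import Pool.Agent.Run7.h88.DimZero

/-!
# The equidistribution conjecture in terms of the local dimension at the point `0`

Let `𝓛` be the set of the weak limits of sequences of ergodic finitely supported probability measures
invariant under `x ↦ 2 x` and `x ↦ 3 x` whose supports grow.  The equidistribution conjecture says
`𝓛 = {λ}`.  We show that either it holds, or some element of `𝓛` has local dimension `0` at the point
`0`.  (The measure `λ` has local dimension `1` at `0`.)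
-/

set_option autoImplicit false

open MeasureTheory Filter Topology

namespace Pool.Agent.Results.MP_715eb0_an.DimensionZero

/-- `μ` is a probability measure on the circle, invariant and jointly ergodic under `x ↦ 2 x` and
`x ↦ 3 x`, and finitely supported. -/
def ErgodicFinite (μ : Measure UnitAddCircle) : Prop :=
  IsProbabilityMeasure μ ∧
  Measure.map (fun x : UnitAddCircle => (2 : ℕ) • x) μ = μ ∧
  Measure.map (fun x : UnitAddCircle => (3 : ℕ) • x) μ = μ ∧
  (∀ s : Set UnitAddCircle, MeasurableSet s →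
    (fun x : UnitAddCircle => (2 : ℕ) • x) ⁻¹' s = s →
    (fun x : UnitAddCircle => (3 : ℕ) • x) ⁻¹' s = s → μ s = 0 ∨ μ sᶜ = 0) ∧
  ∃ t : Finset UnitAddCircle, μ ((t : Set UnitAddCircle)ᶜ) = 0

/-- `μ` is the weak limit of a sequence of ergodic finitely supported measures whose numbers of
atoms tend to infinity. -/
def IsLimit (μ : Measure UnitAddCircle) : Prop :=
  IsProbabilityMeasure μ ∧ ∃ ν : ℕ → Measure UnitAddCircle, (∀ n, ErgodicFinite (ν n)) ∧
    Tendsto (fun n => Set.ncard {x : UnitAddCircle | ν n {x} ≠ 0}) atTop atTop ∧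
    ∀ f : C(UnitAddCircle, ℝ), Tendsto (fun n => ∫ x, f x ∂(ν n)) atTop (𝓝 (∫ x, f x ∂μ))

/-- The equidistribution conjecture. -/
def Equidistribution : Prop :=
  ∀ μ : ℕ → Measure UnitAddCircle, (∀ n, ErgodicFinite (μ n)) →
    Tendsto (fun n => Set.ncard {x : UnitAddCircle | μ n {x} ≠ 0}) atTop atTop →
    ∀ f : C(UnitAddCircle, ℝ), Tendsto (fun n => ∫ x, f x ∂(μ n)) atTop
      (𝓝 (∫ t in (0 : ℝ)..1, f ((t : ℝ) : UnitAddCircle)))

/-- `μ` has local dimension `d` at the point `0`: all the balls around `0` have positive mass, and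
`log μ(B(0, r)) / log r → d` as `r → 0`. -/
def LocalDimensionAtZero (μ : Measure UnitAddCircle) (d : ℝ) : Prop :=
  (∀ r : ℝ, 0 < r → 0 < μ.real {x | ‖x‖ ≤ r}) ∧
  Tendsto (fun r : ℝ => Real.log (μ.real {x | ‖x‖ ≤ r}) / Real.log r) (𝓝[>] 0) (𝓝 d)

lemma vol_ball {r : ℝ} (h0 : 0 ≤ r) (h1 : r ≤ 1 / 2) :
    (volume : Measure UnitAddCircle).real {x | ‖x‖ ≤ r} = 2 * r := by
  have e : {x : UnitAddCircle | ‖x‖ ≤ r} = Metric.closedBall 0 r := by
    ext x
    simp
  rw [e, measureReal_def, AddCircle.volume_closedBall, ENNReal.toReal_ofReal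
    (by rw [le_min_iff]; constructor <;> linarith), min_eq_right (by linarith)]

/-- Lebesgue measure has local dimension `1` at `0`. -/
theorem dim_volume : LocalDimensionAtZero volume 1 := by
  refine ⟨fun r hr => ?_, ?_⟩
  · have h0 : 0 < min r (1 / 2) := lt_min hr (by norm_num)
    have h1 := vol_ball h0.le (min_le_right r (1 / 2))
    have h2 : {x : UnitAddCircle | ‖x‖ ≤ min r (1 / 2)} ⊆ {x | ‖x‖ ≤ r} :=
      fun x (hx : ‖x‖ ≤ _) => show ‖x‖ ≤ r from le_trans hx (min_le_left _ _)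
    have h3 : (volume : Measure UnitAddCircle).real {x | ‖x‖ ≤ min r (1 / 2)} ≤
        (volume : Measure UnitAddCircle).real {x | ‖x‖ ≤ r} := measureReal_mono h2
    rw [h1] at h3
    linarith
  have h1 : Tendsto (fun r : ℝ => Real.log 2 / Real.log r + 1) (𝓝[>] 0) (𝓝 (0 + 1)) :=
    (Real.tendsto_log_nhdsGT_zero.const_div_atBot _).add_const 1
  rw [zero_add] at h1
  refine h1.congr' ?_
  have h2 : ∀ᶠ r : ℝ in 𝓝[>] 0, r < 1 / 2 :=
    (eventually_lt_nhds (by norm_num : (0 : ℝ) < 1 / 2)).filter_mono nhdsWithin_le_nhds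
  filter_upwards [h2, self_mem_nhdsWithin] with r hr hr0
  rw [Set.mem_Ioi] at hr0
  have hlog : Real.log r < 0 := Real.log_neg hr0 (by linarith)
  rw [vol_ball hr0.le hr.le, Real.log_mul (by norm_num) hr0.ne', add_div, div_self hlog.ne]

/-- **The dimension dichotomy.** The equidistribution conjecture holds if and only if no weak limit
of large finite orbits has local dimension `0` at the point `0`. -/
theorem result : Equidistribution ↔ ∀ κ, IsLimit κ → ¬ LocalDimensionAtZero κ 0 := by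
  have e1 : ∀ μ : Measure UnitAddCircle, ErgodicFinite μ ↔ Run7.h88.EF μ := fun μ =>
    ⟨fun h => ⟨h.1, h.2.1, h.2.2.1, h.2.2.2.1, h.2.2.2.2⟩,
      fun h => ⟨h.prob, h.two, h.three, h.erg, h.fin⟩⟩
  have e2 : ∀ μ : Measure UnitAddCircle, IsLimit μ ↔ Run7.h88.IsLim μ := by
    intro μ
    unfold IsLimit Run7.h88.IsLim Run7.h88.atoms
    simp only [e1]
  have e3 : Equidistribution ↔ ∀ μ : Measure UnitAddCircle, Run7.h88.IsLim μ → μ = volume := by
    rw [← Run7.h88.q1_iff]
    unfold Equidistribution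
    simp only [e1, Run7.h88.int_circle]
    rfl
  rw [e3]
  simp only [e2]
  constructor
  · intro h κ hκ hdim
    rw [h κ hκ] at hdim
    exact zero_ne_one (tendsto_nhds_unique hdim.2 dim_volume.2)
  · intro h μ hμ
    by_contra hne
    obtain ⟨hp, ν, hν, hcard, hlim⟩ := hμ
    set P : ℕ → ProbabilityMeasure UnitAddCircle := fun i => ⟨ν i, (hν i).prob⟩ with hP
    set Q : ProbabilityMeasure UnitAddCircle := ⟨μ, hp⟩ with hQ
    have hlim' : Tendsto P atTop (𝓝 Q) := Run7.h88.tendsto_prob (μ := Q) (ν := P) hlim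
    obtain ⟨κ, hκ, hdim⟩ := Run7.h88.dim_zero hlim' (fun i => hν i) hcard hne
    have hκp := hκ.1
    refine h κ hκ ⟨fun r hr0 => ?_, ?_⟩
    · obtain ⟨r₀, hr₀, hr⟩ := hdim 1 one_pos
      have h0 : 0 < min r r₀ := lt_min hr0 hr₀
      have h1 := hr (min r r₀) h0 (min_le_right _ _)
      have h2 : {x : UnitAddCircle | ‖x‖ ≤ min r r₀} ⊆ {x | ‖x‖ ≤ r} :=
        fun x (hx : ‖x‖ ≤ _) => show ‖x‖ ≤ r from le_trans hx (min_le_left _ _)
      exact (Real.rpow_pos_of_pos h0 _).trans_le (h1.trans (measureReal_mono h2))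
    rw [Metric.tendsto_nhds]
    intro ε hε
    obtain ⟨r₀, hr₀, hr⟩ := hdim (ε / 2) (by positivity)
    have h2 : ∀ᶠ r : ℝ in 𝓝[>] 0, r < min r₀ 1 :=
      (eventually_lt_nhds (lt_min hr₀ one_pos)).filter_mono nhdsWithin_le_nhds
    filter_upwards [h2, self_mem_nhdsWithin] with r hr1 hr0
    rw [Set.mem_Ioi] at hr0
    rw [lt_min_iff] at hr1
    have hlog : Real.log r < 0 := Real.log_neg hr0 hr1.2
    have h3 := hr r hr0 hr1.1.le
    have hpos : 0 < r ^ (ε / 2) := Real.rpow_pos_of_pos hr0 _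
    have h4 : Real.log (κ.real {x | ‖x‖ ≤ r}) ≤ 0 :=
      Real.log_nonpos measureReal_nonneg measureReal_le_one
    have h5 : ε / 2 * Real.log r ≤ Real.log (κ.real {x | ‖x‖ ≤ r}) := by
      rw [← Real.log_rpow hr0]
      exact Real.log_le_log hpos h3
    have h6 : 0 ≤ Real.log (κ.real {x | ‖x‖ ≤ r}) / Real.log r :=
      div_nonneg_of_nonpos h4 hlog.le
    have h7 : Real.log (κ.real {x | ‖x‖ ≤ r}) / Real.log r ≤ ε / 2 := by
      rw [div_le_iff_of_neg hlog]
      exact h5
    rw [Real.dist_eq, sub_zero, abs_of_nonneg h6]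
    linarith

end Pool.Agent.Results.MP_715eb0_an.DimensionZero
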