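import Pool.Agent.Run7.h88.Crit

/-!
# Large finite orbits which are not almost equidistributed have dilates at an intermediate distance
# from equidistribution

Let `μ` be an ergodic finitely supported probability measure on the circle, invariant under
`x ↦ 2 x` and `x ↦ 3 x`, with large support.  If `μ` is not close to Lebesgue measure, then some of
its dilates by an integer `k ≤ N ^ δ` are close to Lebesgue measure, but not very close.  Hence the
equidistribution conjecture is equivalent to a LOCAL statement near Lebesgue measure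
(`q1_iff_isolated` below).
-/

set_option autoImplicit false

open MeasureTheory Filter Topology

namespace Pool.Agent.Results.MP_715eb0_an.IntermediateDilates

/-- `μ` is a probability measure on the circle, invariant and jointly ergodic under `x ↦ 2 x` and
`x ↦ 3 x`, and finitely supported. -/
def ErgodicFinite (μ : Measure UnitAddCircle) : Prop :=
  IsProbabilityMeasure μ ∧
  Measure.map (fun x : UnitAddCircle => (2 : ℕ) • x) μ = μ ∧
  Measure.map (fun x : UnitAddCircle => (3 : ℕ) • x) μ = μ ∧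
  (∀ s : Set UnitAddCircle, MeasurableSet s →
    (fun x : UnitAddCircle => (2 : ℕ) • x) ⁻¹' s = s →
    (fun x : UnitAddCircle => (3 : ℕ) • x) ⁻¹' s = s → μ s = 0 ∨ μ sᶜ = 0) ∧
  ∃ t : Finset UnitAddCircle, μ ((t : Set UnitAddCircle)ᶜ) = 0

/-- **Intermediate dilates.** For all `J ≥ 1`, `δ > 0`, `ε > 0` there are `η > 0` and `M` such that
every ergodic finitely supported `μ` with at least `M` atoms, all with `N • x = 0`, and with
`|μ^(j)| ≥ ε` for some `1 ≤ j ≤ J` has an integer `1 ≤ k ≤ N ^ δ` such that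
`η ≤ max (|μ^(k)|, |μ^(2 k)|, …, |μ^(J k)|) < ε`. (The `μ^(j k)` are the coefficients of the image of
`μ` under `x ↦ k x`, which is again ergodic and finitely supported.) -/
theorem result (J : ℕ) (hJ : 1 ≤ J) (δ ε : ℝ) (hδ : 0 < δ) (hε : 0 < ε) :
    ∃ (η : ℝ) (M : ℕ), 0 < η ∧ ∀ μ : Measure UnitAddCircle, ErgodicFinite μ →
      M ≤ Set.ncard {x : UnitAddCircle | μ {x} ≠ 0} →
      ∀ N : ℕ, 1 ≤ N → (∀ x, μ {x} ≠ 0 → N • x = 0) →
      (∃ j : ℕ, 1 ≤ j ∧ j ≤ J ∧ ε ≤ ‖∫ x, (fourier (j : ℤ) x : ℂ) ∂μ‖) →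
      ∃ k : ℕ, 1 ≤ k ∧ (k : ℝ) ≤ (N : ℝ) ^ δ ∧
        (∃ j : ℕ, 1 ≤ j ∧ j ≤ J ∧ η ≤ ‖∫ x, (fourier ((j * k : ℕ) : ℤ) x : ℂ) ∂μ‖) ∧
        ∀ j : ℕ, 1 ≤ j → j ≤ J → ‖∫ x, (fourier ((j * k : ℕ) : ℤ) x : ℂ) ∂μ‖ < ε := by
  obtain ⟨η, M, hη, h⟩ := Run7.h88.gap_crit hJ hδ hε
  exact ⟨η, M, hη, fun μ hμ hM N hN htor hj =>
    h μ ⟨hμ.1, hμ.2.1, hμ.2.2.1, hμ.2.2.2.1, hμ.2.2.2.2⟩ N hN htor hM hj⟩

/-- `μ` is the weak limit of ergodic finitely supported measures with `|supp| → ∞`. -/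
def IsLimit (μ : Measure UnitAddCircle) : Prop :=
  IsProbabilityMeasure μ ∧ ∃ ν : ℕ → Measure UnitAddCircle, (∀ n, ErgodicFinite (ν n)) ∧
    Tendsto (fun n => Set.ncard {x : UnitAddCircle | ν n {x} ≠ 0}) atTop atTop ∧
    ∀ f : C(UnitAddCircle, ℝ), Tendsto (fun n => ∫ x, f x ∂(ν n)) atTop (𝓝 (∫ x, f x ∂μ))

/-- A consequence: the equidistribution conjecture holds if and only if Lebesgue measure is an
isolated point of the set of the weak limits of sequences of large finite orbits. -/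
theorem q1_iff_isolated :
    (∀ μ : ℕ → Measure UnitAddCircle, (∀ n, ErgodicFinite (μ n)) →
      Tendsto (fun n => Set.ncard {x : UnitAddCircle | μ n {x} ≠ 0}) atTop atTop →
      ∀ f : C(UnitAddCircle, ℝ), Tendsto (fun n => ∫ x, f x ∂(μ n)) atTop
        (𝓝 (∫ t in (0 : ℝ)..1, f ((t : ℝ) : UnitAddCircle)))) ↔
    ∃ (J : ℕ) (ε : ℝ), 0 < ε ∧ ∀ μ : Measure UnitAddCircle, IsLimit μ →
      (∀ j : ℕ, 1 ≤ j → j ≤ J → ‖∫ x, (fourier (j : ℤ) x : ℂ) ∂μ‖ < ε) → μ = volume := by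
  have e1 : ∀ μ : Measure UnitAddCircle, ErgodicFinite μ ↔ Run7.h88.EF μ := fun μ =>
    ⟨fun h => ⟨h.1, h.2.1, h.2.2.1, h.2.2.2.1, h.2.2.2.2⟩,
      fun h => ⟨h.prob, h.two, h.three, h.erg, h.fin⟩⟩
  have e2 : ∀ μ : Measure UnitAddCircle, IsLimit μ ↔ Run7.h88.IsLim μ := by
    intro μ
    unfold IsLimit Run7.h88.IsLim Run7.h88.atoms
    simp only [e1]
  have h := Run7.h88.q1_iff.trans Run7.h88.local_crit
  simp only [e1, e2]
  rw [← h]
  simp only [Run7.h88.int_circle]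
  rfl

end Pool.Agent.Results.MP_715eb0_an.IntermediateDilates
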